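import Pool.Agent.U935.AJR.Defs
import Pool.Agent.U935.BBR.Main
import Pool.Agent.Q73.LS.Base

/-!
# Injectivity of Abel-Jacobi maps: blow-ups, domination, hypersurface sections
-/

set_option autoImplicit false

open CategoryTheory AlgebraicGeometry

universe u v w

namespace Pool.Agent.U935.AJR

open Pool.Agent.H914 Pool.Agent.H914.VarClass Pool.Agent.H914.VarClass.Obj Pool.Agent.W492.BB
  Pool.Agent.U644.BBL Pool.Agent.U435.BB Pool.Agent.U935.BBR Pool.Agent.TH133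

set_option linter.unusedSectionVars false

variable {k : Type u} [Field k] {𝒱 : VarClass k} {C : TheoryData.{u, v, 0} 𝒱 ℚ} {K : Type w}
  [Field K] {H : WeilTheoryData.{u, v, w} C K} [hC : IsChowProj C] [hH : IsWeilProj H]
  {A : AbelJacobi H} {X Y P E Z W : 𝒱.Obj}

include hC hH

omit hH in
lemma top_zero {i : ℤ} {x : C.A X} (hx : x ∈ C.gr X i) (h : (X.dim : ℤ) < i) : x = 0 :=
  hC.gr_top X i x hx h

section real

lemma homTriv_of {e : ℤ} {φ : C.A X → C.A Y} {ψ : H.A X → H.A Y} (h : Realised H X Y e φ ψ)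
    {j i : ℕ} (hij : (i : ℤ) - j = e) {x : C.A X} (hx : HomTriv H j x) : HomTriv H i (φ x) := by
  obtain ⟨Γ, hΓ, h1, -⟩ := h
  rw [← h1]
  refine homTriv_act ?_ hx
  rw [shifts_iff, hij]
  exact hΓ

lemma ker_of {e : ℤ} {φ : C.A X → C.A Y} {ψ : H.A X → H.A Y} (h : Realised H X Y e φ ψ)
    {j i : ℕ} (hij : (i : ℤ) - j = e) {x : C.A X} (hx : A.Ker j x) : A.Ker i (φ x) := by
  obtain ⟨Γ, hΓ, h1, -⟩ := h
  rw [← h1]
  refine ker_act ?_ hx
  rw [shifts_iff, hij]
  exact hΓ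

end real

section blowup

variable {r : ℕ} {i : X ⟶ P} {g : Y ⟶ P} {j : E ⟶ Y} {p : E ⟶ X} {ζ : C.A E}

/-- the operators `β = j_* ζ^c p^*` and `α = - p_* ζ^(r-2-c) j^*` of a blow-up -/
lemma ops (h : IsBlowUp C r i g j p ζ) {c : ℕ} (hc : c < r - 1) :
    ∃ (β : C.A X → C.A Y) (β' : H.A X → H.A Y) (α : C.A Y → C.A X) (α' : H.A Y → H.A X),
      Realised H X Y (1 + c) β β' ∧ Realised H Y X (-1 - c) α α' ∧ (∀ x, α (β x) = x) ∧
      ((∀ b : H.A E, H.up j (H.down j b) = -H.mul (H.cl ζ) b) → ∀ a, α' (β' a) = a) := by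
  have d1 := h.dim_center
  have d2 := h.dim_eq
  have d3 := h.dim_exc
  have d4 := h.two_le
  have h2 : C.push p (ζ ^ (r - 1)) = 1 := h.down_pow
  have hc1 : ζ ^ c ∈ C.gr E (c : ℤ) := pow_mem h.deg_zeta _
  have hc2 : -ζ ^ (r - 2 - c) ∈ C.gr E ((r - 2 - c : ℕ) : ℤ) :=
    Submodule.neg_mem _ (pow_mem h.deg_zeta _)
  refine ⟨_, _, _, _, (((Realised.pull p).comp (Realised.mul hc1)).comp (Realised.push j)).congr ?_
    (fun _ => rfl) (fun _ => rfl), (((Realised.pull j).comp (Realised.mul hc2)).comp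
      (Realised.push p)).congr ?_ (fun _ => rfl) (fun _ => rfl), fun x => ?_, fun hs a => ?_⟩
  · omega
  · omega
  · have h1 : C.pull j (C.push j (ζ ^ c * C.pull p x)) = -(ζ * (ζ ^ c * C.pull p x)) :=
      h.self_int _
    change C.push p (-ζ ^ (r - 2 - c) * C.pull j (C.push j (ζ ^ c * C.pull p x))) = x
    rw [h1, neg_mul_neg, ← mul_assoc, ← mul_assoc, ← pow_succ, ← pow_add,
      show r - 2 - c + 1 + c = r - 1 by omega, C.proj_right, h2, one_mul]
  · have h1 : H.pull j (H.push j (H.cl (ζ ^ c) * H.pull p a)) =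
        -(H.cl ζ * (H.cl (ζ ^ c) * H.pull p a)) := hs _
    change H.push p (H.cl (-ζ ^ (r - 2 - c)) * H.pull j (H.push j (H.cl (ζ ^ c) * H.pull p a))) = a
    rw [h1, map_neg, neg_mul_neg, ← mul_assoc, ← mul_assoc, ← map_mul, ← map_mul, ← pow_succ,
      ← pow_add, show r - 2 - c + 1 + c = r - 1 by omega, H.proj_right, ← H.cl_push, h2, map_one,
      one_mul]

lemma ajInj_center (h : IsBlowUp C r i g j p ζ) {c : ℕ} (hc : c < r - 1) {m n : ℕ}
    (hmn : m = n + 1 + c) (hY : AJInj A Y m) : AJInj A X n := by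
  obtain ⟨β, β', α, α', hβ, hα, h1, -⟩ := ops (H := H) h hc
  intro x hx
  have h2 := hY _ (ker_of hβ (by omega) hx)
  rw [← h1 x, h2, map_zero_of hα]

/-- a class on the blow-up in the kernel of the Abel-Jacobi map vanishes if this holds on `P` and on
the centre -/
lemma ajInj_blowUp (h : IsBlowUp C r i g j p ζ) {m : ℕ} (hP : AJInj A P m)
    (hX : ∀ c < r - 1, c + 1 ≤ m → AJInj A X (m - (c + 1))) : AJInj A Y m := by
  have d1 := h.dim_center
  have d2 := h.dim_eq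
  have d3 := h.dim_exc
  have d4 := h.two_le
  intro y hy
  refine h.eq_zero (hP _ (ker_of (Realised.push (H := H) g) (by omega) hy)) fun c hc => ?_
  have hr := ((Realised.pull (H := H) j).comp (Realised.mul (pow_mem h.deg_zeta
    (r - 2 - c)))).comp (Realised.push p)
  rcases Nat.lt_or_ge m (c + 1) with h1 | h1
  · have h2 := mem_of hr (i := m) hy.1.1
    rw [C.gr_neg X _ (by omega)] at h2
    exact (Submodule.mem_bot ℚ).1 h2
  · exact hX c hc h1 _ (ker_of hr (j := m) (i := m - (c + 1)) (by omega) hy)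

lemma homVan_center (h : IsBlowUpH H r i g j p ζ) {c : ℕ} (hc : c < r - 1) {m n : ℕ}
    (hmn : m = n + 1 + c) (h0 : ∀ b : H.A Y, H.Deg (2 * m - 1) b → b = 0) (a : H.A X)
    (ha : H.Deg (2 * n - 1) a) : a = 0 := by
  obtain ⟨β, β', α, α', hβ, hα, h1, h2⟩ := ops (H := H) h.toIsBlowUp hc
  have h3 := memH_of hβ ha
  rw [← h2 h.self_intH a, h0 (β' a) ?_, mapH_zero_of hα]
  rwa [show (2 * (n : ℤ) - 1 + 2 * (1 + c)) = 2 * m - 1 by rw [hmn]; push_cast; ring] at h3

end blowup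

section dominates

lemma ajInj_dominates (h : Dominates C Y X) {m : ℕ} (hY : AJInj A Y m) : AJInj A X m := by
  obtain ⟨f, u, hu, hu1⟩ := h
  intro x hx
  exact eq_zero_of_pull hu1 (hY _ (ker_of (Realised.pull (H := H) f) (by omega) hx))

/-- lifting classes under a dominating morphism without changing the dimension -/
lemma dom_lift (h : Dominates C Y X) :
    ∃ (φ : C.A X → C.A Y) (ψ : H.A X → H.A Y), Realised H X Y ((Y.dim : ℤ) - X.dim) φ ψ ∧
      ∀ x, φ x = 0 → x = 0 := by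
  obtain ⟨f, u, hu, hu1⟩ := h
  refine ⟨_, _, ((Realised.pull (H := H) f).comp (Realised.mul hu)).congr (by ring)
    (fun _ => rfl) (fun _ => rfl), fun x hx => ?_⟩
  have h1 := C.proj_right f u x
  change u * C.pull f x = 0 at hx
  rw [hx, map_zero] at h1
  change 0 = C.down f u * x at h1
  rw [hu1, one_mul] at h1
  exact h1.symm

omit hH in
/-- every variety is dominated by its products -/
lemma dominates_prod (X W : 𝒱.Obj) : Dominates C (X.prod W) X := by
  obtain ⟨a, ha, ha1, -⟩ := exists_deg_one C W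
  refine ⟨fst X W, C.pull (snd X W) a, ?_, ha1 X⟩
  rw [show (((X.prod W).dim : ℤ) - X.dim) = W.dim by rw [dim_prod]; push_cast; ring]
  exact C.pull_mem _ ha

omit hH in
/-- if `Y` dominates `X` and `dim Y < dim X` then all Chow groups of `X` vanish -/
lemma dom_dim (h : Dominates C Y X) (hd : Y.dim < X.dim) (x : C.A X) : x = 0 := by
  obtain ⟨f, u, hu, hu1⟩ := h
  have h1 : u ∈ C.gr Y ((Y.dim : ℤ) - X.dim) := hu
  rw [C.gr_neg Y _ (by omega)] at h1
  have h2 : C.down f u * x = 0 := by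
    rw [(Submodule.mem_bot ℚ).1 h1, show C.down f (0 : C.A Y) = 0 from map_zero _, zero_mul]
  rwa [hu1, one_mul] at h2

end dominates

section sections

variable {f : Z ⟶ X} {D : C.A X}

/-- `f_*` is injective on `H^l(Z)` for `l > dim Z` -/
lemma pushInj (hf : IsSection H f D) {l : ℤ} (hl : (Z.dim : ℤ) < l) {a : H.A Z}
    (ha : a ∈ H.gr Z l) (h0 : H.push f a = 0) : a = 0 := by
  obtain ⟨n, rfl⟩ : ∃ n : ℕ, l = n := ⟨l.toNat, by omega⟩
  exact Pool.Agent.Q73.LS.push_inj (H := H) hf.onto (by omega) ha h0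

lemma homTriv_sec (hf : IsSection H f D) {m : ℕ} (hm : X.dim + 1 < 2 * m) {z : C.A Z}
    (hz : C.Deg ((m : ℤ) - 1) z) (h0 : H.cl (C.push f z) = 0) : HomTriv H (m - 1) z := by
  have hd := hf.dim
  have hm1 : ((m - 1 : ℕ) : ℤ) = (m : ℤ) - 1 := by omega
  refine ⟨by rw [hm1]; exact hz, ?_⟩
  refine pushInj hf (l := 2 * ((m : ℤ) - 1)) (by omega) (H.cl_mem hz) ?_
  rw [← H.cl_push, h0]

lemma ker_sec (hJ : JExact A) (hf : IsSection H f D) {m : ℕ} (hm : X.dim + 2 < 2 * m) {z : C.A Z}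
    (hz : C.Deg ((m : ℤ) - 1) z) (h0 : A.Ker m (C.push f z)) : A.Ker (m - 1) z := by
  have hd := hf.dim
  have h1 := homTriv_sec hf (by omega) hz h0.1.2
  refine ⟨h1, ?_⟩
  obtain ⟨Γ, hΓ, h2, h3⟩ := Realised.push (H := H) f
  have hs : Shifts (m - 1) m Γ := by
    rw [shifts_iff]
    rwa [show ((m : ℤ) - ((m - 1 : ℕ) : ℤ)) = X.dim - Z.dim by omega]
  refine hJ hs (fun a ha h4 => ?_) _ ?_
  · rw [h3] at h4
    exact pushInj hf (l := 2 * ((m - 1 : ℕ) : ℤ) - 1) (by omega) ha h4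
  · rw [← A.aj_act hs h1, h2]
    exact h0.2

lemma vanH_sec (hf : IsSection H f D) {m : ℕ} (hm : X.dim + 2 < 2 * m)
    (h0 : ∀ a : H.A X, H.Deg (2 * m - 1) a → a = 0) (a : H.A Z)
    (ha : H.Deg (2 * ((m - 1 : ℕ) : ℤ) - 1) a) : a = 0 := by
  have hd := hf.dim
  refine pushInj hf (l := 2 * ((m - 1 : ℕ) : ℤ) - 1) (by omega) ha (h0 _ ?_)
  have h1 := H.push_mem f ha
  rwa [show (2 * ((m - 1 : ℕ) : ℤ) - 1 + 2 * ((X.dim : ℤ) - Z.dim)) = 2 * m - 1 by omega] at h1

end sections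

end Pool.Agent.U935.AJR
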