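import Pool.Agent.U935.BBR.Defs

/-!
# Injectivity of Abel-Jacobi maps and rational varieties: definitions

The standing data are as in `Pool.Agent.U644.BBL.Defs`: `𝒱` is a class of smooth proper varieties
over a field which is closed under products, `C` has the formal properties of the Chow groups with
rational coefficients of these varieties, `H` those of a Weil cohomology theory with cycle class
maps, and `A` those of the Abel-Jacobi maps.
-/

set_option autoImplicit false

open CategoryTheory AlgebraicGeometry

universe u v w

namespace Pool.Agent.U935.AJR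

open Pool.Agent.H914 Pool.Agent.H914.VarClass Pool.Agent.H914.VarClass.Obj Pool.Agent.W492.BB
  Pool.Agent.U644.BBL Pool.Agent.U935.BBR

variable {k : Type u} [Field k] {𝒱 : VarClass k} {C : TheoryData.{u, v, 0} 𝒱 ℚ} {K : Type w}
  [Field K] {H : WeilTheoryData.{u, v, w} C K} (A : AbelJacobi H)

/-- The rational Abel-Jacobi map is injective on the homologically trivial classes of codimension
`m` on `X`. -/
def AJInj (X : 𝒱.Obj) (m : ℕ) : Prop := ∀ x : C.A X, A.Ker m x → x = 0

/-- The exactness of the functor `J`: if the correspondence `Γ` from `CH^j(X)` to `CH^i(Y)` acts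
injectively on `H^(2j-1)(X)`, then its action on the (rational) intermediate Jacobians is injective.
(For the Griffiths intermediate Jacobians with rational coefficients this holds because polarizable
Hodge structures are semisimple.) -/
def JExact : Prop := ∀ {X Y : 𝒱.Obj} {j i : ℕ} {Γ : C.A (X.prod Y)}, Shifts j i Γ →
  (∀ a : H.A X, H.Deg (2 * j - 1) a → H.act (H.cl Γ) a = 0 → a = 0) →
  ∀ t : A.J X j, A.map j i Γ t = 0 → t = 0

variable (H)

/-- `H^(2m-1)(X) = 0` implies that all homologically trivial classes of codimension `m` on `X`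
vanish (rational coefficients). -/
def HomVan (X : 𝒱.Obj) (m : ℕ) : Prop :=
  (∀ a : H.A X, H.Deg (2 * m - 1) a → a = 0) → ∀ x : C.A X, HomTriv H m x → x = 0

/-- The formal properties of a blow-up as in `IsBlowUp`, and the self-intersection formula
`j^* j_* b = - cl(ζ) b` also for the cohomology classes `b` on the exceptional divisor. -/
structure IsBlowUpH (r : ℕ) {X P Y E : 𝒱.Obj} (i : X ⟶ P) (g : Y ⟶ P) (j : E ⟶ Y) (p : E ⟶ X)
    (ζ : C.A E) : Prop extends IsBlowUp C r i g j p ζ where
  self_intH : ∀ b : H.A E, H.up j (H.down j b) = -H.mul (H.cl ζ) b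

/-- `Y` is the blow-up of `P` along the smooth subvariety `X` (of codimension at least two). -/
def BlowUpOfH (X P Y : 𝒱.Obj) : Prop :=
  ∃ (r : ℕ) (E : 𝒱.Obj) (i : X ⟶ P) (g : Y ⟶ P) (j : E ⟶ Y) (p : E ⟶ X) (ζ : C.A E),
    IsBlowUpH H r i g j p ζ

/-- `Y` is obtained from a variety without homologically trivial cycle classes (for instance a
projective space) by a sequence of blow-ups in smooth centres (of codimension at least two). -/
inductive IterBl : 𝒱.Obj → Prop
  | cell (P : 𝒱.Obj) (hP : NoHomTriv H P) : IterBl P
  | blowUp (X P Y : 𝒱.Obj) (hP : IterBl P) (h : BlowUpOfH H X P Y) : IterBl Y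

end Pool.Agent.U935.AJR
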