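import Pool.Agent.U935.AJR.Base

/-!
# Injectivity of Abel-Jacobi maps: reductions to small dimension and to rational varieties
-/

set_option autoImplicit false

open CategoryTheory AlgebraicGeometry

universe u v w

namespace Pool.Agent.U935.AJR

open Pool.Agent.H914 Pool.Agent.H914.VarClass Pool.Agent.H914.VarClass.Obj Pool.Agent.W492.BB
  Pool.Agent.U644.BBL Pool.Agent.U435.BB Pool.Agent.U935.BBR Pool.Agent.TH133

set_option linter.unusedSectionVars false

variable {k : Type u} [Field k] {𝒱 : VarClass k} {C : TheoryData.{u, v, 0} 𝒱 ℚ} {K : Type w}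
  [Field K] {H : WeilTheoryData.{u, v, w} C K} [hC : IsChowProj C] [hH : IsWeilProj H]
  {A : AbelJacobi H} {X Y P E Z W : 𝒱.Obj}

include hC hH

section small

/-- reduction to `2 m ≤ dim X + 2` -/
theorem small_range (hJ : JExact A) (Amp : ∀ X : 𝒱.Obj, C.A X → Prop)
    (hA : ∀ X : 𝒱.Obj, 2 ≤ X.dim → ∃ D, Amp X D) (hs : HasSections H Amp) (n : ℕ)
    (h : ∀ X : 𝒱.Obj, X.dim ≤ n → ∀ m : ℕ, 2 * m ≤ X.dim + 2 → AJInj A X m) :
    ∀ X : 𝒱.Obj, X.dim ≤ n → ∀ m : ℕ, AJInj A X m := by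
  suffices h1 : ∀ d, d ≤ n → ∀ X : 𝒱.Obj, X.dim = d → ∀ m : ℕ, AJInj A X m from
    fun X hX m => h1 X.dim hX X rfl m
  intro d
  induction d with
  | zero =>
    intro hd X hX m
    rcases Nat.lt_or_ge 1 m with h2 | h2
    · intro x hx
      exact top_zero hx.1.1 (by omega)
    · exact h X (by omega) m (by omega)
  | succ d ih =>
    intro hd X hX m
    rcases Nat.lt_or_ge (X.dim + 2) (2 * m) with h2 | h2
    · intro x hx
      rcases Nat.lt_or_ge X.dim m with h3 | h3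
      · exact top_zero hx.1.1 (by exact_mod_cast h3)
      obtain ⟨D, hD⟩ := hA X (by omega)
      obtain ⟨Z, f, z, hf, -, hz, rfl⟩ := hs X D hD (by omega) m x hx.1.1 (by omega)
      have h4 := ker_sec hJ hf h2 hz hx
      have h5 := hf.dim
      rw [ih (by omega) Z (by omega) (m - 1) z h4]
      exact map_zero _
    · exact h X (by omega) m h2

/-- the same for the vanishing of homologically trivial classes -/
theorem small_range_van (Amp : ∀ X : 𝒱.Obj, C.A X → Prop)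
    (hA : ∀ X : 𝒱.Obj, 2 ≤ X.dim → ∃ D, Amp X D) (hs : HasSections H Amp) (n : ℕ)
    (h : ∀ X : 𝒱.Obj, X.dim ≤ n → ∀ m : ℕ, 1 ≤ m → 2 * m ≤ X.dim + 2 → HomVan H X m) :
    ∀ X : 𝒱.Obj, X.dim ≤ n → ∀ m : ℕ, 1 ≤ m → HomVan H X m := by
  suffices h1 : ∀ d, d ≤ n → ∀ X : 𝒱.Obj, X.dim = d → ∀ m : ℕ, 1 ≤ m → HomVan H X m from
    fun X hX m => h1 X.dim hX X rfl m
  intro d
  induction d with
  | zero =>
    intro hd X hX m hm
    rcases Nat.lt_or_ge 1 m with h2 | h2
    · intro _ x hx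
      exact top_zero hx.1 (by omega)
    · exact h X (by omega) m hm (by omega)
  | succ d ih =>
    intro hd X hX m hm
    rcases Nat.lt_or_ge (X.dim + 2) (2 * m) with h2 | h2
    · intro h0 x hx
      rcases Nat.lt_or_ge X.dim m with h3 | h3
      · exact top_zero hx.1 (by exact_mod_cast h3)
      obtain ⟨D, hD⟩ := hA X (by omega)
      obtain ⟨Z, f, z, hf, -, hz, rfl⟩ := hs X D hD (by omega) m x hx.1 (by omega)
      have h4 := homTriv_sec hf (by omega) hz hx.2
      have h5 := hf.dim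
      rw [ih (by omega) Z (by omega) (m - 1) (by omega) (vanH_sec hf h2 h0) z h4]
      exact map_zero _
    · exact h X (by omega) m hm h2

end small

section shift

/-- from all varieties to the class `Ratl`, codimension one higher -/
theorem ajInj_ratl {m : ℕ} (h : ∀ X : 𝒱.Obj, ∀ j ≤ m, AJInj A X j) {Y : 𝒱.Obj} (hY : Ratl H Y) :
    ∀ j ≤ m + 1, AJInj A Y j := by
  induction hY with
  | cell P hP => exact fun j _ x hx => hP j x hx.1
  | blowUp X P Y hP h' ih =>
    obtain ⟨r, E, i, g, j, p, ζ, h'⟩ := h'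
    exact fun l hl => ajInj_blowUp h' (ih l hl) fun c _ hcl => h X _ (by omega)
  | dominated Y X hY h' ih => exact fun j hj => ajInj_dominates h' (ih j hj)

theorem tfae_codim (A : AbelJacobi H) (S : Set 𝒱.Obj) (hS : ∀ X, ∃ Y ∈ S, ∃ P, BlowUpOf C X P Y)
    (hS' : ∀ Y ∈ S, Ratl H Y) (m : ℕ) :
    List.TFAE [∀ X : 𝒱.Obj, ∀ j ≤ m, AJInj A X j, ∀ Y : 𝒱.Obj, Ratl H Y → ∀ j ≤ m + 1, AJInj A Y j,
      ∀ Y ∈ S, ∀ j ≤ m + 1, AJInj A Y j] := by
  tfae_have 1 → 2 := fun h Y hY => ajInj_ratl h hY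
  tfae_have 2 → 3 := fun h Y hY => h Y (hS' Y hY)
  tfae_have 3 → 1 := by
    intro h X j hj
    obtain ⟨Y, hY, P, r, E, i, g, j', p, ζ, h'⟩ := hS X
    have := h'.two_le
    exact ajInj_center (c := 0) h' (by omega) (m := j + 1) (by omega) (h Y hY _ (by omega))
  tfae_finish

/-- one-cycles on the varieties of the class `Ratl` -/
theorem oneCycles_ratl (h : ∀ X : 𝒱.Obj, AJInj A X X.dim) {Y : 𝒱.Obj} (hY : Ratl H Y) :
    1 ≤ Y.dim → AJInj A Y (Y.dim - 1) := by
  induction hY with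
  | cell P hP => exact fun _ x hx => hP _ x hx.1
  | blowUp X P Y hP h' ih =>
    intro hd
    obtain ⟨r, E, i, g, j, p, ζ, h'⟩ := h'
    have d1 := h'.dim_center
    have d2 := h'.dim_eq
    have d4 := h'.two_le
    refine ajInj_blowUp h' (by rw [d2]; exact ih (by omega)) fun c hc hcl => ?_
    rcases Nat.lt_or_ge X.dim (Y.dim - 1 - (c + 1)) with h1 | h1
    · intro x hx
      exact top_zero hx.1.1 (by exact_mod_cast h1)
    · rw [show Y.dim - 1 - (c + 1) = X.dim by omega]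
      exact h X
  | dominated Y X hY h' ih =>
    intro hd x hx
    rcases Nat.eq_zero_or_pos Y.dim with h0 | h0
    · exact dom_dim h' (by omega) x
    · obtain ⟨φ, ψ, hr, h1⟩ := dom_lift (H := H) h'
      exact h1 x (ih h0 _ (ker_of hr (j := X.dim - 1) (i := Y.dim - 1) (by omega) hx))

lemma zeroCycles_dominates (h : Dominates C Y X) (hY : AJInj A Y Y.dim) : AJInj A X X.dim := by
  intro x hx
  obtain ⟨φ, ψ, hr, h1⟩ := dom_lift (H := H) h
  exact h1 x (hY _ (ker_of hr (j := X.dim) (i := Y.dim) (by omega) hx))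

/-- zero-cycles: from surfaces to all varieties -/
theorem zeroCycles_of_surfaces (hJ : JExact A) (Amp : ∀ X : 𝒱.Obj, C.A X → Prop)
    (hA : ∀ X : 𝒱.Obj, 2 ≤ X.dim → ∃ D, Amp X D) (hs : HasPointSections H Amp)
    (h : ∀ T : 𝒱.Obj, T.dim = 2 → AJInj A T 2) :
    ∀ X : 𝒱.Obj, AJInj A X X.dim := by
  suffices h1 : ∀ d, ∀ X : 𝒱.Obj, X.dim = d → AJInj A X X.dim from fun X => h1 X.dim X rfl
  intro d
  induction d with
  | zero =>
    intro X hX x hx
    rw [hX] at hx
    exact A.codim_zero hx.1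
  | succ d ih =>
    intro X hX
    rcases Nat.lt_or_ge 2 X.dim with h2 | h2
    · intro x hx
      obtain ⟨D, hD⟩ := hA X (by omega)
      obtain ⟨Z, f, z, hf, -, hz, rfl⟩ := hs X D hD (by omega) x hx.1.1
      have h4 := ker_sec hJ hf (by omega) hz hx
      have h5 := hf.dim
      rw [ih Z (by omega) z (by rwa [show X.dim - 1 = Z.dim by omega] at h4)]
      exact map_zero _
    · rcases Nat.lt_or_ge X.dim 2 with h3 | h3
      · have hd : (X.prod X).dim = 2 := by rw [dim_prod]; omega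
        exact zeroCycles_dominates (dominates_prod X X) (by rw [hd]; exact h _ hd)
      · have h4 : X.dim = 2 := by omega
        rw [h4]
        exact h X h4

theorem tfae_zeroCycles (A : AbelJacobi H) (hJ : JExact A) (Amp : ∀ X : 𝒱.Obj, C.A X → Prop)
    (hA : ∀ X : 𝒱.Obj, 2 ≤ X.dim → ∃ D, Amp X D) (hs : HasPointSections H Amp)
    (S : Set 𝒱.Obj)
    (hS : ∀ T : 𝒱.Obj, T.dim = 2 → ∃ X, Dominates C X T ∧ ∃ Y ∈ S, ∃ P, BlowUpOf C X P Y)
    (hS' : ∀ Y ∈ S, Ratl H Y) :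
    List.TFAE [∀ X : 𝒱.Obj, AJInj A X X.dim, ∀ T : 𝒱.Obj, T.dim = 2 → AJInj A T 2,
      ∀ Y : 𝒱.Obj, Ratl H Y → 1 ≤ Y.dim → AJInj A Y (Y.dim - 1),
      ∀ Y ∈ S, AJInj A Y (Y.dim - 1)] := by
  tfae_have 1 → 3 := fun h Y hY => oneCycles_ratl h hY
  tfae_have 3 → 4 := by
    intro h Y hY
    rcases Nat.eq_zero_or_pos Y.dim with h0 | h0
    · intro x hx
      rw [h0] at hx
      exact A.codim_zero hx.1
    · exact h Y (hS' Y hY) h0
  tfae_have 4 → 2 := by
    intro h T hT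
    obtain ⟨X, hX, Y, hY, P, r, E, i, g, j, p, ζ, h'⟩ := hS T hT
    have d1 := h'.dim_center
    have d2 := h'.dim_eq
    have d4 := h'.two_le
    have h1 : AJInj A X X.dim := ajInj_center (c := r - 2) h' (by omega) (m := Y.dim - 1)
      (by omega) (h Y hY)
    have h2 := zeroCycles_dominates hX h1
    rwa [hT] at h2
  tfae_have 2 → 1 := zeroCycles_of_surfaces hJ Amp hA hs
  tfae_finish

end shift

section van

lemma prod_curve (hX : X.dim = 1) (h0 : ∀ a : H.A X, H.Deg (2 * ((1 : ℕ) : ℤ) - 1) a → a = 0)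
    (a : H.A (X.prod X)) (ha : H.Deg (2 * ((2 : ℕ) : ℤ) - 1) a) : a = 0 := by
  have h1 := H.kunneth X X _ ha
  have h2 : Submodule.span K {c : H.A (X.prod X) | ∃ (l : ℤ) (a : H.A X) (b : H.A X),
      a ∈ H.gr X l ∧ b ∈ H.gr X (2 * ((2 : ℕ) : ℤ) - 1 - l) ∧
      c = H.pull (fst X X) a * H.pull (snd X X) b} ≤ ⊥ := by
    rw [Submodule.span_le]
    rintro c ⟨l, a, b, h3, h4, rfl⟩
    have h5 : ∀ {n : ℤ} {b : H.A X}, b ∈ H.gr X n → 2 * (X.dim : ℤ) < n → b = 0 := by
      intro n b hb hn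
      rw [TH133.gr_top H hn] at hb
      exact (Submodule.mem_bot K).1 hb
    have h6 : a = 0 ∨ b = 0 := by
      rcases lt_trichotomy l 1 with h | h | h
      · exact Or.inr (h5 h4 (by rw [hX]; push_cast; omega))
      · exact Or.inl (h0 a (by rw [h] at h3; exact h3))
      · rcases eq_or_lt_of_le (show (2 : ℤ) ≤ l by omega) with h7 | h7
        · exact Or.inr (h0 b (by rw [← h7] at h4; exact h4))
        · exact Or.inl (h5 h3 (by rw [hX]; push_cast; omega))
    rcases h6 with h6 | h6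
    · rw [h6, map_zero, zero_mul]; exact Submodule.zero_mem _
    · rw [h6, map_zero, mul_zero]; exact Submodule.zero_mem _
  exact (Submodule.mem_bot K).1 (h2 h1)

/-- homologically trivial zero-cycles: from surfaces to all varieties -/
theorem zeroVan_of_surfaces (Amp : ∀ X : 𝒱.Obj, C.A X → Prop)
    (hA : ∀ X : 𝒱.Obj, 2 ≤ X.dim → ∃ D, Amp X D) (hs : HasPointSections H Amp)
    (h : ∀ T : 𝒱.Obj, T.dim = 2 → HomVan H T 2) :
    ∀ X : 𝒱.Obj, 1 ≤ X.dim → HomVan H X X.dim := by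
  suffices h1 : ∀ d, ∀ X : 𝒱.Obj, X.dim = d → 1 ≤ X.dim → HomVan H X X.dim from
    fun X => h1 X.dim X rfl
  intro d
  induction d with
  | zero => intro X hX hX1; omega
  | succ d ih =>
    intro X hX hX1
    rcases Nat.lt_or_ge 2 X.dim with h2 | h2
    · intro h0 x hx
      obtain ⟨D, hD⟩ := hA X (by omega)
      obtain ⟨Z, f, z, hf, -, hz, rfl⟩ := hs X D hD (by omega) x hx.1
      have h4 := homTriv_sec hf (m := X.dim) (by omega) hz hx.2
      have h5 := hf.dim
      have h6 := vanH_sec hf (m := X.dim) (by omega) h0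
      rw [show X.dim - 1 = Z.dim by omega] at h4 h6
      rw [ih Z (by omega) (by omega) h6 z h4]
      exact map_zero _
    · rcases Nat.lt_or_ge X.dim 2 with h3 | h3
      · have h1 : X.dim = 1 := by omega
        have hd : (X.prod X).dim = 2 := by rw [dim_prod]; omega
        intro h0 x hx
        rw [h1] at h0 hx
        obtain ⟨φ, ψ, hr, h6⟩ := dom_lift (H := H) (dominates_prod (C := C) X X)
        refine h6 x (h _ hd (prod_curve h1 h0) _ (homTriv_of hr (j := 1) (i := 2) ?_ hx))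
        rw [hd, h1]
      · have h4 : X.dim = 2 := by omega
        rw [h4]
        exact h X h4

/-- one-cycles on iterated blow-ups -/
theorem oneVan_iterBl (h : ∀ X : 𝒱.Obj, 1 ≤ X.dim → HomVan H X X.dim)
    (h00 : ∀ (X : 𝒱.Obj) (x : C.A X), HomTriv H 0 x → x = 0) {Y : 𝒱.Obj}
    (hY : IterBl H Y) : 2 ≤ Y.dim → HomVan H Y (Y.dim - 1) := by
  induction hY with
  | cell P hP => exact fun _ _ x hx => hP _ x hx
  | blowUp X P Y hP h' ih =>
    intro hd h0 y hy
    obtain ⟨r, E, i, g, j, p, ζ, h'⟩ := h'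
    have d1 := h'.dim_center
    have d2 := h'.dim_eq
    have d3 := h'.dim_exc
    have d4 := h'.two_le
    have hPv : ∀ a : H.A P, H.Deg (2 * ((P.dim - 1 : ℕ) : ℤ) - 1) a → a = 0 := by
      intro a ha
      have h1 := h0 (H.pull g a) (by
        have h2 := H.pull_mem g ha
        rw [← d2] at h2
        exact h2)
      have h2 := H.proj_right g 1 a
      rw [h1, mul_zero, map_zero] at h2
      have h3 : H.push g (1 : H.A Y) = 1 := by
        have h4 : C.push g (1 : C.A Y) = 1 := h'.down_one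
        have h5 := H.cl_push g (1 : C.A Y)
        rw [h4, map_one, map_one] at h5
        exact h5.symm
      rw [h3, one_mul] at h2
      exact h2.symm
    refine h'.eq_zero (ih (by omega) hPv _ (homTriv_of (Realised.push (H := H) g)
      (j := Y.dim - 1) (by omega) hy)) fun c hc => ?_
    have hr := ((Realised.pull (H := H) j).comp (Realised.mul (pow_mem h'.deg_zeta
      (r - 2 - c)))).comp (Realised.push p)
    rcases Nat.lt_or_ge (Y.dim - 1) (c + 1) with h1 | h1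
    · have h2 := mem_of hr (i := (Y.dim - 1 : ℕ)) hy.1
      rw [C.gr_neg X _ (by omega)] at h2
      exact (Submodule.mem_bot ℚ).1 h2
    · have h2 := homTriv_of hr (j := Y.dim - 1) (i := Y.dim - 1 - (c + 1)) (by omega) hy
      rcases Nat.lt_or_ge X.dim (Y.dim - 1 - (c + 1)) with h3 | h3
      · exact top_zero h2.1 (by exact_mod_cast h3)
      · have h4 : Y.dim - 1 - (c + 1) = X.dim := by omega
        rcases Nat.eq_zero_or_pos X.dim with h5 | h5
        · rw [h4, h5] at h2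
          exact h00 X _ h2
        · rw [h4] at h2
          exact h X h5 (fun a ha => homVan_center h' hc (m := Y.dim - 1) (n := X.dim)
            (by omega) h0 a ha) _ h2

theorem tfae_van (Amp : ∀ X : 𝒱.Obj, C.A X → Prop)
    (hA : ∀ X : 𝒱.Obj, 2 ≤ X.dim → ∃ D, Amp X D) (hs : HasPointSections H Amp)
    (h00 : ∀ (X : 𝒱.Obj) (x : C.A X), HomTriv H 0 x → x = 0)
    (S : Set 𝒱.Obj)
    (hS : ∀ T : 𝒱.Obj, T.dim = 2 → (∀ a : H.A T, H.Deg 3 a → a = 0) → ∃ X, Dominates C X T ∧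
      ∃ Y ∈ S, (∃ P, BlowUpOfH H X P Y) ∧ ∀ b : H.A Y, H.Deg (2 * Y.dim - 3) b → b = 0)
    (hS' : ∀ Y ∈ S, IterBl H Y) :
    List.TFAE [∀ X : 𝒱.Obj, 1 ≤ X.dim → HomVan H X X.dim,
      ∀ T : 𝒱.Obj, T.dim = 2 → HomVan H T 2,
      ∀ Y : 𝒱.Obj, IterBl H Y → 2 ≤ Y.dim → HomVan H Y (Y.dim - 1),
      ∀ Y ∈ S, 2 ≤ Y.dim → HomVan H Y (Y.dim - 1)] := by
  tfae_have 1 → 3 := fun h Y hY => oneVan_iterBl h h00 hY
  tfae_have 3 → 4 := fun h Y hY => h Y (hS' Y hY)
  tfae_have 4 → 2 := by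
    intro h T hT h0 x hx
    obtain ⟨X, hX, Y, hY, ⟨P, r, E, i, g, j, p, ζ, h'⟩, hY0⟩ := hS T hT (fun a ha => h0 a (by
      rwa [show (2 * ((2 : ℕ) : ℤ) - 1) = 3 by norm_num]))
    have d1 := h'.dim_center
    have d2 := h'.dim_eq
    have d4 := h'.two_le
    obtain ⟨φ, ψ, hr, h6⟩ := dom_lift (H := H) hX
    apply h6
    obtain ⟨β, β', α, α', hβ, hα, h1, -⟩ := ops (H := H) h'.toIsBlowUp (c := r - 2) (by omega)
    have h2 : HomTriv H X.dim (φ x) := homTriv_of hr (j := 2) (i := X.dim) (by rw [hT]) hx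
    have h3 : HomTriv H (Y.dim - 1) (β (φ x)) := homTriv_of hβ (j := X.dim) (i := Y.dim - 1)
      (by omega) h2
    rw [← h1 (φ x), h Y hY (by omega) (fun b hb => hY0 b (by
      rwa [show (2 * ((Y.dim - 1 : ℕ) : ℤ) - 1) = 2 * Y.dim - 3 by omega] at hb)) _ h3,
      map_zero_of hα]
  tfae_have 2 → 1 := zeroVan_of_surfaces Amp hA hs
  tfae_finish

end van

end Pool.Agent.U935.AJR
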